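import Pool.Agent.Lib.MP_b5021c_nt.W.H80.Win

/-!
# MP_b5021c_nt, all `θ` (PaperALL.md), leaf I2: the cardioid condition and `f(0) ≥ 2`
-/

namespace Pool.Agent.B5.Nr.Sch

open Polynomial

/-- The cubic of leaf I2 is positive. -/
theorem i2_cubic {a : ℝ} (ha : 0 < a) : 0 < 1 - 5 * a + 6 * a ^ 2 + a ^ 3 := by
  have h1 : 0 ≤ (a - 38 / 100) ^ 2 * (a + 76 / 100) := by positivity
  have h2 : (a - 38 / 100) ^ 2 * (a + 76 / 100) = a ^ 3 - 4332 / 10000 * a + 109744 / 1000000 := by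
    ring
  rw [h2] at h1
  have h3 : 0 ≤ (a - 11417 / 30000) ^ 2 := sq_nonneg _
  have h4 : (a - 11417 / 30000) ^ 2 = a ^ 2 - 11417 / 15000 * a + 130347889 / 900000000 := by ring
  rw [h4] at h3
  linarith

/-- The last step of leaf I2. -/
theorem i2_end {a p : ℝ} (ha : 0 < a) (ha2 : a < 9 / 20) (hp0 : 0 < p) (hap : a ≤ p)
    (h7 : 0 ≤ (2 + a) * (p * (2 + a ^ 2) - 3 * a * (1 - p + p ^ 2)) -
      2 * (6 * a - 1 + a ^ 2) * (1 - a) * p) : a ≤ p * (1 - a) := by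
  by_contra hcon
  push Not at hcon
  have h1 : 0 < (1 - a) - a * p := by
    have : a * (p * (1 - a)) < a * a := mul_lt_mul_of_pos_left hcon ha
    have h2 : a * a < (1 - a) * (1 - a) := by nlinarith
    have h3 : 0 < ((1 - a) - a * p) * (1 - a) := by nlinarith
    exact pos_of_mul_pos_left h3 (by linarith)
  have e1 : 0 < (a - (1 - a) * p) * ((1 - a) - a * p) := mul_pos (by linarith) h1
  have e3 := i2_cubic ha
  have e4 : 0 ≤ ((2 + a) * (p * (2 + a ^ 2) - 3 * a * (1 - p + p ^ 2)) -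
    2 * (6 * a - 1 + a ^ 2) * (1 - a) * p) * (1 - a) := mul_nonneg h7 (by linarith)
  have e5 : 0 < (2 + a) * 3 * ((a - (1 - a) * p) * ((1 - a) - a * p)) :=
    mul_pos (by linarith) e1
  have e6 : 0 < 3 * a * p * (1 - 5 * a + 6 * a ^ 2 + a ^ 3) := by positivity
  have e7 : ((2 + a) * (p * (2 + a ^ 2) - 3 * a * (1 - p + p ^ 2)) -
    2 * (6 * a - 1 + a ^ 2) * (1 - a) * p) * (1 - a) +
      (2 + a) * 3 * ((a - (1 - a) * p) * ((1 - a) - a * p)) +
      3 * a * p * (1 - 5 * a + 6 * a ^ 2 + a ^ 3) = 0 := by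
    ring
  linarith

/-- The algebra of leaf I2. -/
theorem i2_alg {a p u r r1 κ : ℝ} (ha : 0 < a) (hap : a ≤ p) (hp1 : p < 1) (hu : 2 ≤ u)
    (hr : r * (1 - a * p) ≤ p - a) (hr' : |r| ≤ 1)
    (hr1 : r1 * (p * (1 - a / 2 * r)) = r - a / 2)
    (hκ : κ * (4 - a ^ 2) = 2 * (3 * u * a - 1 + a ^ 2)) (hκ1 : |κ| ≤ 1)
    (hpick : |r1 - κ| ≤ p * (1 - κ * r1)) : p⁻¹ ≤ a⁻¹ - 1 := by
  have hp0 : 0 < p := ha.trans_le hap
  have ha1 : a < 1 := hap.trans_lt hp1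
  obtain ⟨hκa, hκb⟩ := abs_le.mp hκ1
  obtain ⟨hra, hrb⟩ := abs_le.mp hr'
  have h4 : 0 < 4 - a ^ 2 := by nlinarith
  -- `a < 9/20`
  have ha2 : a < 9 / 20 := by
    have h1 : 2 * (6 * a - 1 + a ^ 2) ≤ 4 - a ^ 2 := by
      have h2 : 2 * (3 * u * a - 1 + a ^ 2) ≤ 4 - a ^ 2 := by
        rw [← hκ]; nlinarith
      nlinarith [mul_le_mul_of_nonneg_right hu ha.le]
    by_contra hcon
    push Not at hcon
    nlinarith
  -- the step (2)
  have h1 : κ - r1 ≤ p * (1 - κ * r1) := by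
    have := (abs_le.mp hpick).1
    linarith
  have hw : 0 < p * (1 - a / 2 * r) := by
    have : a / 2 * r ≤ a / 2 := by nlinarith
    exact mul_pos hp0 (by linarith)
  -- (*)
  have h2 : κ * (p * (1 - a / 2) * (1 + r)) ≤ p ^ 2 - a / 2 + r * (1 - a / 2 * p ^ 2) := by
    have h3 : (κ - r1) * (p * (1 - a / 2 * r)) ≤ (p * (1 - κ * r1)) * (p * (1 - a / 2 * r)) :=
      mul_le_mul_of_nonneg_right h1 hw.le
    have e1 : (κ - r1) * (p * (1 - a / 2 * r)) = κ * (p * (1 - a / 2 * r)) - (r - a / 2) := by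
      rw [← hr1]; ring
    have e2 : (p * (1 - κ * r1)) * (p * (1 - a / 2 * r)) =
        p * (p * (1 - a / 2 * r)) - κ * p * (r - a / 2) := by
      rw [← hr1]; ring
    rw [e1, e2] at h3
    linarith
  set κ2 : ℝ := 2 * (6 * a - 1 + a ^ 2) / (4 - a ^ 2) with hκ2
  have hκ2e : κ2 * (4 - a ^ 2) = 2 * (6 * a - 1 + a ^ 2) := by
    rw [hκ2]; field_simp
  have hκ2le : κ2 ≤ κ := by
    have : κ2 * (4 - a ^ 2) ≤ κ * (4 - a ^ 2) := by
      rw [hκ2e, hκ]
      nlinarith [mul_le_mul_of_nonneg_right hu ha.le]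
    exact le_of_mul_le_mul_right this h4
  have hκ21 : κ2 ≤ 1 := hκ2le.trans hκb
  have h3 : κ2 * (p * (1 - a / 2) * (1 + r)) ≤ p ^ 2 - a / 2 + r * (1 - a / 2 * p ^ 2) := by
    refine le_trans ?_ h2
    exact mul_le_mul_of_nonneg_right hκ2le (by
      have : 0 ≤ 1 + r := by linarith
      have : 0 ≤ 1 - a / 2 := by linarith
      positivity)
  -- replace `r` by its bound
  have hc : 0 ≤ 1 - a / 2 * p ^ 2 - κ2 * (p * (1 - a / 2)) := by
    have e1 : κ2 * (p * (1 - a / 2)) ≤ 1 * (p * (1 - a / 2)) :=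
      mul_le_mul_of_nonneg_right hκ21 (mul_nonneg hp0.le (by linarith))
    nlinarith [mul_pos ha hp0, mul_pos (sub_pos.mpr hp1) (sub_pos.mpr hp1)]
  have h5 : 0 < 1 - a * p := by nlinarith
  have h6 : 0 ≤ (p ^ 2 - a / 2) * (1 - a * p) + (p - a) * (1 - a / 2 * p ^ 2) -
      κ2 * (p * (1 - a / 2)) * ((1 - a) * (1 + p)) := by
    have e1 : 0 ≤ (p ^ 2 - a / 2 + r * (1 - a / 2 * p ^ 2) -
        κ2 * (p * (1 - a / 2) * (1 + r))) * (1 - a * p) :=
      mul_nonneg (by linarith) h5.le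
    have e2 : r * (1 - a * p) * (1 - a / 2 * p ^ 2 - κ2 * (p * (1 - a / 2))) ≤
        (p - a) * (1 - a / 2 * p ^ 2 - κ2 * (p * (1 - a / 2))) :=
      mul_le_mul_of_nonneg_right hr hc
    nlinarith [e1, e2]
  have h7 : 0 ≤ (2 + a) * (p * (2 + a ^ 2) - 3 * a * (1 - p + p ^ 2)) -
      2 * (6 * a - 1 + a ^ 2) * (1 - a) * p := by
    have e1 : (p ^ 2 - a / 2) * (1 - a * p) + (p - a) * (1 - a / 2 * p ^ 2) -
        κ2 * (p * (1 - a / 2)) * ((1 - a) * (1 + p)) =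
        (1 + p) / 2 * (p * (2 + a ^ 2) - 3 * a * (1 - p + p ^ 2) - κ2 * (2 - a) * (1 - a) * p) := by
      ring
    rw [e1] at h6
    have e2 : 0 ≤ p * (2 + a ^ 2) - 3 * a * (1 - p + p ^ 2) - κ2 * (2 - a) * (1 - a) * p :=
      nonneg_of_mul_nonneg_right h6 (by positivity)
    have e3 : (2 + a) * (p * (2 + a ^ 2) - 3 * a * (1 - p + p ^ 2)) -
      2 * (6 * a - 1 + a ^ 2) * (1 - a) * p =
      (2 + a) * (p * (2 + a ^ 2) - 3 * a * (1 - p + p ^ 2) - κ2 * (2 - a) * (1 - a) * p) := by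
      rw [← hκ2e]; ring
    rw [e3]
    exact mul_nonneg (by linarith) e2
  -- the end
  have hend : a ≤ p * (1 - a) := i2_end ha ha2 hp0 hap h7
  have h8 : p⁻¹ ≤ (a / (1 - a))⁻¹ := by
    refine inv_anti₀ (div_pos ha (by linarith)) ?_
    rw [div_le_iff₀ (by linarith)]
    exact hend
  rw [inv_div] at h8
  have h9 : (1 - a) / a = a⁻¹ - 1 := by field_simp
  rw [h9] at h8
  exact h8

/-- The Schur pair of the cardioid (disc) condition. -/
theorem Loc.car {Q f : ℤ[X]} {a : ℝ} (h : Loc Q f a)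
    (hcar : ∀ z : ℂ, ‖z‖ = 1 → ‖3 * (z * aeval z f) + aeval z Q‖ ≤ 2 * ‖aeval z Q‖) :
    ∃ s : ℝ[X], Q.map (Int.castRingHom ℝ) = (X - C a) * s ∧
    SP (C (-(1 / 2) : ℝ) * (3 * (X * f.map (Int.castRingHom ℝ)) + Q.map (Int.castRingHom ℝ)))
      (s * (1 - C a * X)) ∧
    s.coeff 0 = -a⁻¹ ∧ s.coeff 1 = -a⁻¹ ^ 2 - a⁻¹ * Q.coeff 1 ∧
    s.coeff 2 = -a⁻¹ ^ 3 - a⁻¹ ^ 2 * Q.coeff 1 - a⁻¹ * Q.coeff 2 ∧
    ∀ x : ℝ, 0 ≤ x → x ≤ 1 → s.eval x < 0 := by
  obtain ⟨s, hs, hsp, s0, s1, s2, hneg⟩ := h.sp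
  refine ⟨s, hs, SP.of_circle hsp.nz (fun z hz => ?_), s0, s1, s2, hneg⟩
  have e1 : aeval z (C (-(1 / 2) : ℝ) * (3 * (X * f.map (Int.castRingHom ℝ)) +
      Q.map (Int.castRingHom ℝ))) = -(1 / 2) * (3 * (z * aeval z f) + aeval z Q) := by
    have h3 : aeval z (3 : ℝ[X]) = 3 := by
      have : (3 : ℝ[X]) = ((3 : ℕ) : ℝ[X]) := by norm_num
      rw [this, map_natCast]; norm_num
    rw [map_mul, map_add, map_mul, map_mul, aeval_X, aeval_map_real, aeval_map_real, aeval_C, h3]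
    simp
  have e2 : ‖aeval z (s * (1 - C a * X))‖ = ‖aeval z Q‖ := by
    rw [← aeval_map_real, hs, map_mul, map_mul, norm_mul, norm_mul, mul_comm]
    congr 1
    have h1 : aeval z (X - C a) = z - a := by simp
    have h2 : aeval z (1 - C a * X) = 1 - a * z := by simp
    rw [h1, h2, circ a z hz]
  rw [e1, e2, norm_mul]
  have e3 : ‖(-(1 / 2) : ℂ)‖ = 1 / 2 := by
    rw [norm_neg]; norm_num
  rw [e3]
  linarith [hcar z hz]

/-- (I2) cardioid condition, `f(0) ≥ 2`: the load of type B gains one in `θ`. -/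
theorem Loc.i2 {Q f : ℤ[X]} {a : ℝ} (h : Loc Q f a) (hu : 2 ≤ f.coeff 0)
    (hcar : ∀ z : ℂ, ‖z‖ = 1 → ‖3 * (z * aeval z f) + aeval z Q‖ ≤ 2 * ‖aeval z Q‖)
    {p : ℝ} (hap : a ≤ p) (hp1 : p < 1) (hB : (aeval p Q : ℝ) + p * aeval p f ≤ 0) :
    p⁻¹ ≤ a⁻¹ - 1 := by
  obtain ⟨s, hs, hsp, s0, s1, s2, hneg⟩ := h.car hcar
  have ha := h.a0
  have ha1 := h.a1
  have hp0 : 0 < p := ha.trans_le hap
  set F : ℝ[X] := C (-(1 / 2) : ℝ) * (3 * (X * f.map (Int.castRingHom ℝ)) +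
    Q.map (Int.castRingHom ℝ)) with hF
  set R : ℝ[X] := s * (1 - C a * X) with hR
  have hRX : R = s - C a * (X * s) := by rw [hR]; ring
  have r0 : R.coeff 0 = -a⁻¹ := by
    rw [hRX, coeff_sub, coeff_C_mul, coeff_X_mul_zero, mul_zero, sub_zero, s0]
  have r1c : R.coeff 1 = s.coeff 1 - a * s.coeff 0 := by
    rw [hRX, coeff_sub, coeff_C_mul, coeff_X_mul]
  have h3c : (3 : ℝ[X]) = C (3 : ℝ) := by rw [map_ofNat]
  have f0 : F.coeff 0 = -(1 / 2) := by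
    rw [hF, coeff_C_mul, coeff_add, h3c, coeff_C_mul, coeff_X_mul_zero, coeff_map, h.q0]
    simp
  have f1 : F.coeff 1 = -(1 / 2) * (3 * f.coeff 0 + Q.coeff 1) := by
    rw [hF, coeff_C_mul, coeff_add, h3c, coeff_C_mul, coeff_X_mul, coeff_map, coeff_map]
    rfl
  have hg0 : F.coeff 0 = a / 2 * R.coeff 0 := by
    rw [f0, r0]; field_simp
  obtain ⟨F1, hF1⟩ := exists_quot F R hg0
  have hga : |a / 2| < 1 := by rw [abs_of_pos (by positivity)]; linarith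
  have hsp1 := hsp.step hga hF1
  set R1 : ℝ[X] := R - C (a / 2) * F with hR1
  have F10 : F1.coeff 0 = -(3 * f.coeff 0 - (a⁻¹ - a)) / 2 := by
    have := congrArg (fun q => q.coeff 1) hF1
    simp only [coeff_X_mul, coeff_sub, coeff_C_mul] at this
    rw [this, f1, r1c, s1, s0]
    field_simp
    ring
  have R10 : R1.coeff 0 = -a⁻¹ + a / 4 := by
    rw [hR1, coeff_sub, coeff_C_mul, r0, f0]; ring
  have hx : |p| ≤ 1 := by rw [abs_of_pos hp0]; exact hp1.le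
  have hRp := (hsp.ev hx).1
  set r := F.eval p / R.eval p with hr
  have hrr := hsp.ratio hx
  have h1ap : 0 < 1 - a * p := by nlinarith
  have hsn := hneg p hp0.le hp1.le
  have e1 : R.eval p = s.eval p * (1 - a * p) := by rw [hR, eval_mul]; simp
  have hRn : R.eval p < 0 := by rw [e1]; exact mul_neg_of_neg_of_pos hsn h1ap
  have hrb : r * (1 - a * p) ≤ p - a := by
    have e2 : (aeval p Q : ℝ) = (p - a) * s.eval p := by
      have h1 : (aeval p Q : ℝ) = (Q.map (Int.castRingHom ℝ)).eval p := by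
        rw [eval_map]; rfl
      rw [h1, hs, eval_mul]; simp
    have e3 : (aeval p f : ℝ) = (f.map (Int.castRingHom ℝ)).eval p := by
      rw [eval_map]; rfl
    have e4 : F.eval p = -(1 / 2) * (3 * (p * (f.map (Int.castRingHom ℝ)).eval p) +
        (p - a) * s.eval p) := by
      rw [hF, hs, h3c]
      simp only [eval_mul, eval_add, eval_C, eval_X, eval_sub]
    have e5 : (p - a) * s.eval p ≤ F.eval p := by
      rw [e4]
      rw [e2, e3] at hB
      linarith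
    have e6 : r * R.eval p = F.eval p := by
      rw [hr, div_mul_cancel₀ _ hRp]
    rw [e1] at e6
    by_contra hcon
    push Not at hcon
    have := mul_lt_mul_of_neg_right hcon hsn
    nlinarith
  have hd : 1 - a / 2 * r ≠ 0 := by
    have := abs_le.mp hrr
    intro h0
    nlinarith
  have hval1 := SP.step_val hF1 hRp hp0.ne' hd
  rw [← hr] at hval1
  have hR10 : R1.coeff 0 ≠ 0 := (hsp1.coeff_le).1
  have hR10n : -a⁻¹ + a / 4 ≠ 0 := by rw [← R10]; exact hR10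
  set κ : ℝ := F1.coeff 0 / R1.coeff 0 with hκ
  have hκ1 : |κ| ≤ 1 := by
    rw [hκ, abs_div, div_le_one (abs_pos.mpr hR10)]
    exact (hsp1.coeff_le).2
  have hκe : F1.coeff 0 = κ * R1.coeff 0 := by rw [hκ, div_mul_cancel₀ _ hR10]
  have hpick := hsp1.pick hκe hp0.le hp1.le
  rw [hval1] at hpick
  have hκ4 : κ * (4 - a ^ 2) = 2 * (3 * (f.coeff 0 : ℝ) * a - 1 + a ^ 2) := by
    rw [F10, R10] at hκe
    have h2 : κ * (-a⁻¹ + a / 4) * (-(4 * a)) = κ * (4 - a ^ 2) := by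
      field_simp
      ring
    rw [← h2, ← hκe]
    field_simp
    ring
  refine i2_alg (u := (f.coeff 0 : ℝ)) ha hap hp1 (by exact_mod_cast hu) hrb hrr ?_ hκ4 hκ1 hpick
  rw [div_mul_cancel₀]
  exact mul_ne_zero hp0.ne' hd

/-- (I2) in the form of the row: `V_B = Q + z f` is nonnegative at `a/(1-a)`. -/
theorem i2 (Q f : ℤ[X]) (a : ℝ) (h : Loc Q f a)
    (hc : ∀ z : ℂ, ‖z‖ = 1 → ‖aeval z (Q + 3 * X * f)‖ ≤ 2 * ‖aeval z Q‖)
    (hu : 2 ≤ f.coeff 0) (ha : a < 1 / 2) :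
    0 ≤ (aeval (a / (1 - a)) Q : ℝ) + a / (1 - a) * aeval (a / (1 - a)) f := by
  by_contra hcon
  push Not at hcon
  have ha0 := h.a0
  have h1a : 0 < 1 - a := by linarith
  set p : ℝ := a / (1 - a) with hp
  have hap : a < p := by
    rw [hp, lt_div_iff₀ h1a]; nlinarith
  have hp1 : p < 1 := by
    rw [hp, div_lt_one h1a]; linarith
  have hcont : Continuous (fun x : ℝ => (aeval x Q : ℝ) + x * aeval x f) := by
    have h1 : Continuous (fun x : ℝ => (aeval x Q : ℝ)) := Polynomial.continuous_aeval Q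
    have h2 : Continuous (fun x : ℝ => (aeval x f : ℝ)) := Polynomial.continuous_aeval f
    exact h1.add (continuous_id.mul h2)
  have hev : ∀ᶠ x in nhds p, (aeval x Q : ℝ) + x * aeval x f < 0 :=
    hcont.continuousAt.eventually_lt_const hcon
  obtain ⟨ε, hε, hball⟩ := Metric.eventually_nhds_iff.mp hev
  set x : ℝ := max a (p - ε / 2) with hx
  have hxp : x < p := max_lt hap (by linarith)
  have hxa : a ≤ x := le_max_left _ _
  have hxε : p - ε / 2 ≤ x := le_max_right _ _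
  have hV := hball (y := x) (by
    rw [Real.dist_eq, abs_lt]; constructor <;> linarith)
  have hx0 : 0 < x := ha0.trans_le hxa
  have hmain := h.i2 hu (fun z hz => by
    have := hc z hz
    have e1 : aeval z (Q + 3 * X * f) = 3 * (z * aeval z f) + aeval z Q := by
      simp only [map_add, map_mul, aeval_X, map_ofNat]
      ring
    rw [e1] at this
    exact this) hxa (hxp.trans hp1) hV.le
  have h2 : a⁻¹ - 1 = p⁻¹ := by
    rw [hp, inv_div]; field_simp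
  rw [h2] at hmain
  have h3 : p ≤ x := (inv_le_inv₀ hx0 (ha0.trans hap)).mp hmain
  linarith

end Pool.Agent.B5.Nr.Sch
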